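import Mathlib

set_option autoImplicit false

/-! Counting words with given lists of letters which avoid patterns whose last `v` letters are
determined by the preceding ones. -/

namespace Pool.Agent.H229R3.NR

open Finset Classical

variable {ι : ℕ → Type} [∀ v, Fintype (ι v)] (R : (v : ℕ) → ι v → List ℕ → List ℕ)

/-- no rule applies to the head of `l` -/
def Ok (l : List ℕ) : Prop :=
  ∀ v, 1 ≤ v → v ≤ l.length → ∀ k : ι v, l.take v ≠ R v k (l.drop v)

/-- good words, latest letter first -/
noncomputable def Gd (L : ℕ → Finset ℕ) : ℕ → Finset (List ℕ)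
  | 0 => {[]}
  | n + 1 => ((L n ×ˢ Gd L n).filter (fun q => Ok R (q.1 :: q.2))).image (fun q => q.1 :: q.2)

lemma mem_Gd_succ {L : ℕ → Finset ℕ} {n : ℕ} {l : List ℕ} :
    l ∈ Gd R L (n + 1) ↔ ∃ x l', x ∈ L n ∧ l' ∈ Gd R L n ∧ Ok R (x :: l') ∧ l = x :: l' := by
  simp only [Gd, mem_image, mem_filter, mem_product, Prod.exists]
  constructor
  · rintro ⟨x, l', ⟨⟨h1, h2⟩, h3⟩, h4⟩
    exact ⟨x, l', h1, h2, h3, h4.symm⟩
  · rintro ⟨x, l', h1, h2, h3, h4⟩
    exact ⟨x, l', ⟨⟨h1, h2⟩, h3⟩, h4.symm⟩

lemma length_Gd {L : ℕ → Finset ℕ} {n : ℕ} {l : List ℕ} (h : l ∈ Gd R L n) : l.length = n := by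
  induction n generalizing l with
  | zero => simp only [Gd, mem_singleton] at h; simp [h]
  | succ n ih =>
    obtain ⟨x, l', _, h2, _, rfl⟩ := (mem_Gd_succ R).1 h
    simp [ih h2]

lemma drop_Gd {L : ℕ → Finset ℕ} {n : ℕ} {l : List ℕ} (h : l ∈ Gd R L n) (v : ℕ) (hv : v ≤ n) :
    l.drop v ∈ Gd R L (n - v) := by
  induction v generalizing l n with
  | zero => simpa using h
  | succ v ih =>
    obtain ⟨n, rfl⟩ : ∃ n', n = n' + 1 := ⟨n - 1, by omega⟩
    obtain ⟨x, l', _, h2, _, rfl⟩ := (mem_Gd_succ R).1 h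
    simpa using ih h2 (by omega)

lemma ok_Gd {L : ℕ → Finset ℕ} {n : ℕ} {l : List ℕ} (h : l ∈ Gd R L n) : Ok R l := by
  cases n with
  | zero =>
    simp only [Gd, mem_singleton] at h
    subst h
    intro v hv hv2
    simp at hv2
    omega
  | succ n =>
    obtain ⟨x, l', _, _, h3, rfl⟩ := (mem_Gd_succ R).1 h
    exact h3

lemma card_succ (L : ℕ → Finset ℕ) (n : ℕ) :
    (L n).card * (Gd R L n).card ≤ (Gd R L (n + 1)).card +
      ∑ v ∈ Finset.Icc 1 (n + 1), Fintype.card (ι v) * (Gd R L (n + 1 - v)).card := by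
  have h1 : (Gd R L (n + 1)).card = ((L n ×ˢ Gd R L n).filter
      (fun q => Ok R (q.1 :: q.2))).card := by
    rw [Gd, Finset.card_image_of_injective]
    rintro ⟨a, b⟩ ⟨c, d⟩ h
    simp only [List.cons.injEq] at h
    exact Prod.ext h.1 h.2
  have h2 : ((L n ×ˢ Gd R L n).filter (fun q => ¬ Ok R (q.1 :: q.2))).card ≤
      ∑ v ∈ Finset.Icc 1 (n + 1), Fintype.card (ι v) * (Gd R L (n + 1 - v)).card := by
    have hsub : (L n ×ˢ Gd R L n).filter (fun q => ¬ Ok R (q.1 :: q.2)) ⊆
        (Finset.Icc 1 (n + 1)).biUnion (fun v => (Finset.univ : Finset (ι v)).biUnion (fun k =>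
          (L n ×ˢ Gd R L n).filter (fun q => (q.1 :: q.2).take v = R v k ((q.1 :: q.2).drop v)))) := by
      rintro ⟨x, l⟩ hq
      rw [mem_filter] at hq
      have hl := length_Gd R (mem_product.1 hq.1).2
      have hq2 := hq.2
      unfold Ok at hq2
      push Not at hq2
      obtain ⟨v, hv1, hv2, k, hk⟩ := hq2
      simp only at hv2 hk hl
      rw [List.length_cons, hl] at hv2
      simp only [mem_biUnion, mem_Icc, mem_univ, true_and, mem_filter]
      exact ⟨v, ⟨hv1, hv2⟩, k, hq.1, hk⟩
    refine (card_le_card hsub).trans (card_biUnion_le.trans (Finset.sum_le_sum ?_))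
    intro v hv
    rw [mem_Icc] at hv
    refine card_biUnion_le.trans ?_
    calc _ ≤ ∑ _k : ι v, (Gd R L (n + 1 - v)).card := by
          apply Finset.sum_le_sum
          intro k _
          refine Finset.card_le_card_of_injOn (fun q => (q.1 :: q.2).drop v) ?_ ?_
          · rintro ⟨x, l⟩ hq
            rw [mem_coe, mem_filter, mem_product] at hq
            obtain ⟨v, rfl⟩ : ∃ v', v = v' + 1 := ⟨v - 1, by omega⟩
            simp only [List.drop_succ_cons]
            have := drop_Gd R hq.1.2 v (by omega)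
            rw [show n + 1 - (v + 1) = n - v by omega]
            exact this
          · rintro ⟨x, l⟩ hq ⟨x', l'⟩ hq' h
            rw [mem_coe, mem_filter] at hq hq'
            have e1 : x :: l = x' :: l' := by
              rw [← List.take_append_drop v (x :: l), ← List.take_append_drop v (x' :: l')]
              have h' : (x :: l).drop v = (x' :: l').drop v := h
              rw [hq.2, hq'.2, h']
            simp only [List.cons.injEq] at e1
            exact Prod.ext e1.1 e1.2
      _ = _ := by simp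
  have h3 := Finset.card_filter_add_card_filter_not (s := L n ×ˢ Gd R L n)
    (fun q : ℕ × List ℕ => Ok R (q.1 :: q.2))
  rw [Finset.card_product] at h3
  omega

lemma double (L : ℕ → Finset ℕ) (C : ℕ) (hL : ∀ n, C + 2 ≤ (L n).card)
    (hC : ∀ n, ∑ v ∈ Finset.Icc 1 (n + 1), Fintype.card (ι v) * 2 ^ (n + 1 - v) ≤ C * 2 ^ n) :
    ∀ n, 2 * (Gd R L n).card ≤ (Gd R L (n + 1)).card := by
  intro n
  induction n using Nat.strong_induction_on with
  | _ n ih =>
    have hpow : ∀ v, v ≤ n → 2 ^ v * (Gd R L (n - v)).card ≤ (Gd R L n).card := by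
      intro v
      induction v with
      | zero => intro _; simp
      | succ v ihv =>
        intro hv
        have h1 := ihv (by omega)
        have h2 := ih (n - (v + 1)) (by omega)
        rw [show n - (v + 1) + 1 = n - v by omega] at h2
        calc 2 ^ (v + 1) * (Gd R L (n - (v + 1))).card
            = 2 ^ v * (2 * (Gd R L (n - (v + 1))).card) := by ring
          _ ≤ 2 ^ v * (Gd R L (n - v)).card := Nat.mul_le_mul_left _ h2
          _ ≤ _ := h1
    have hsum : 2 ^ n * ∑ v ∈ Finset.Icc 1 (n + 1),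
        Fintype.card (ι v) * (Gd R L (n + 1 - v)).card ≤ 2 ^ n * (C * (Gd R L n).card) := by
      calc 2 ^ n * ∑ v ∈ Finset.Icc 1 (n + 1), Fintype.card (ι v) * (Gd R L (n + 1 - v)).card
          = ∑ v ∈ Finset.Icc 1 (n + 1),
              2 ^ n * (Fintype.card (ι v) * (Gd R L (n + 1 - v)).card) := by
            rw [Finset.mul_sum]
        _ ≤ ∑ v ∈ Finset.Icc 1 (n + 1),
              (Fintype.card (ι v) * 2 ^ (n + 1 - v)) * (Gd R L n).card := by
            apply Finset.sum_le_sum
            intro v hv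
            rw [mem_Icc] at hv
            have h1 := hpow (v - 1) (by omega)
            rw [show n - (v - 1) = n + 1 - v by omega] at h1
            calc 2 ^ n * (Fintype.card (ι v) * (Gd R L (n + 1 - v)).card)
                = Fintype.card (ι v) * 2 ^ (n + 1 - v) *
                    (2 ^ (v - 1) * (Gd R L (n + 1 - v)).card) := by
                  have : 2 ^ n = 2 ^ (n + 1 - v) * 2 ^ (v - 1) := by
                    rw [← pow_add]; congr 1; omega
                  rw [this]; ring
              _ ≤ _ := Nat.mul_le_mul_left _ h1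
        _ = (∑ v ∈ Finset.Icc 1 (n + 1), Fintype.card (ι v) * 2 ^ (n + 1 - v)) *
              (Gd R L n).card := by rw [Finset.sum_mul]
        _ ≤ (C * 2 ^ n) * (Gd R L n).card := Nat.mul_le_mul_right _ (hC n)
        _ = _ := by ring
    have hsum' := Nat.le_of_mul_le_mul_left hsum (by positivity)
    have h1 := card_succ R L n
    have h2 : (C + 2) * (Gd R L n).card ≤ (L n).card * (Gd R L n).card :=
      Nat.mul_le_mul_right _ (hL n)
    nlinarith

lemma exists_good (L : ℕ → Finset ℕ) (C : ℕ) (hL : ∀ n, C + 2 ≤ (L n).card)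
    (hC : ∀ n, ∑ v ∈ Finset.Icc 1 (n + 1), Fintype.card (ι v) * 2 ^ (n + 1 - v) ≤ C * 2 ^ n)
    (n : ℕ) : ∃ l, l ∈ Gd R L n := by
  have h : ∀ n, 0 < (Gd R L n).card := by
    intro n
    induction n with
    | zero => simp [Gd]
    | succ n ih =>
      have := double R L C hL hC n
      omega
  exact Finset.card_pos.1 (h n)

/-- The word as a function. -/
lemma exists_fun (L : ℕ → Finset ℕ) (C : ℕ) (hL : ∀ n, C + 2 ≤ (L n).card)
    (hC : ∀ n, ∑ v ∈ Finset.Icc 1 (n + 1), Fintype.card (ι v) * 2 ^ (n + 1 - v) ≤ C * 2 ^ n)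
    (n : ℕ) : ∃ f : ℕ → ℕ, (∀ i, i < n → f i ∈ L i) ∧
      ∀ m, m ≤ n → Ok R ((List.range m).reverse.map f) := by
  obtain ⟨l, hl⟩ := exists_good R L C hL hC n
  have hlen := length_Gd R hl
  refine ⟨fun i => l.getD (n - 1 - i) 0, ?_, ?_⟩
  · intro i hi
    have h1 := drop_Gd R hl (n - 1 - i) (by omega)
    rw [show n - (n - 1 - i) = i + 1 by omega] at h1
    obtain ⟨x, l', hx, _, _, he⟩ := (mem_Gd_succ R).1 h1
    have : l.getD (n - 1 - i) 0 = x := by
      have h2 : (l.drop (n - 1 - i)).getD 0 0 = x := by rw [he]; rfl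
      rw [← h2]
      simp [List.getD_eq_getElem?_getD]
    show l.getD (n - 1 - i) 0 ∈ L i
    rw [this]
    exact hx
  · intro m hm
    have h1 := drop_Gd R hl (n - m) (by omega)
    have h2 := ok_Gd R h1
    have h3 : (List.range m).reverse.map (fun i => l.getD (n - 1 - i) 0) = l.drop (n - m) := by
      apply List.ext_getElem
      · simp; omega
      · intro i h1 h2
        simp at h1 h2 ⊢
        have : n - 1 - (m - 1 - i) = n - m + i := by omega
        rw [this]
        simp [List.getElem?_eq_getElem (show n - m + i < l.length by omega)]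
    rw [h3]
    exact h2

end Pool.Agent.H229R3.NR
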