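import Mathlib

set_option autoImplicit false

namespace Pool.Agent.H229R3.NR

open Classical

variable {V : Type}

/-- `v 0, …, v (m-1)` is a path of `G` inside `S` -/
structure IsP (G : SimpleGraph V) (S : Set V) (m : ℕ) (v : ℕ → V) : Prop where
  inj : ∀ i j, i < m → j < m → v i = v j → i = j
  adj : ∀ i, i + 1 < m → G.Adj (v i) (v (i + 1))
  mem : ∀ i, i < m → v i ∈ S

/-- restriction of `G` to `S`, as a graph on `V` -/
def res (G : SimpleGraph V) (S : Set V) : SimpleGraph V where
  Adj a b := G.Adj a b ∧ a ∈ S ∧ b ∈ S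
  symm := ⟨fun _ _ h => ⟨h.1.symm, h.2.2, h.2.1⟩⟩
  loopless := ⟨fun _ h => h.1.ne rfl⟩

def Conn (G : SimpleGraph V) (S : Set V) : Prop :=
  ∀ a ∈ S, ∀ b ∈ S, (res G S).Reachable a b

variable {G : SimpleGraph V} {S K : Set V} {m n : ℕ} {v p : ℕ → V}

lemma IsP.fwd (h : IsP G S m v) (a g : ℕ) (hg : a + g ≤ m) (hK : ∀ b, b < g → v (a + b) ∈ K) :
    IsP G K g (fun b => v (a + b)) :=
  ⟨fun i j hi hj e => by have := h.inj _ _ (by omega) (by omega) e; omega,
   fun i hi => h.adj (a + i) (by omega), hK⟩

lemma IsP.bwd (h : IsP G S m v) (a g : ℕ) (ha : a < m) (hg : g ≤ a + 1)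
    (hK : ∀ b, b < g → v (a - b) ∈ K) : IsP G K g (fun b => v (a - b)) :=
  ⟨fun i j hi hj e => by have := h.inj _ _ (by omega) (by omega) e; omega,
   fun i hi => by
    have := h.adj (a - (i + 1)) (by omega)
    rw [show a - (i + 1) + 1 = a - i by omega] at this
    exact this.symm, hK⟩

lemma IsP.toWalk (hm : 0 < m) (h : IsP G S m v) :
    ∃ q : G.Walk (v 0) (v (m - 1)), q.IsPath ∧ q.support = (List.range m).map v := by
  induction m with
  | zero => omega
  | succ m ih =>
    rcases Nat.eq_zero_or_pos m with rfl | hm'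
    · exact ⟨SimpleGraph.Walk.nil, by simp, by simp⟩
    · obtain ⟨q, _, hq2⟩ := ih hm' ⟨fun i j hi hj => h.inj i j (by omega) (by omega),
        fun i hi => h.adj i (by omega), fun i hi => h.mem i (by omega)⟩
      have hadj := h.adj (m - 1) (by omega)
      rw [show m - 1 + 1 = m by omega] at hadj
      have hs : (q.concat hadj).support = (List.range (m + 1)).map v := by
        rw [SimpleGraph.Walk.support_concat, hq2, List.range_succ, List.map_append]
        simp
      refine ⟨q.concat hadj, ?_, hs⟩
      rw [SimpleGraph.Walk.isPath_def, hs]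
      apply List.Nodup.map_on _ List.nodup_range
      intro x hx y hy e
      rw [List.mem_range] at hx hy
      exact h.inj _ _ hx hy e

lemma path_unique (hG : G.IsAcyclic) {S' : Set V} {m' : ℕ} {v' : ℕ → V} (hm : 0 < m) (hm' : 0 < m')
    (h : IsP G S m v) (h' : IsP G S' m' v') (e0 : v 0 = v' 0) (e1 : v (m - 1) = v' (m' - 1)) :
    m = m' ∧ ∀ i, i < m → v i = v' i := by
  obtain ⟨q, hq, hs⟩ := h.toWalk hm
  obtain ⟨q', hq', hs'⟩ := h'.toWalk hm'
  have key : ∀ (a b : V) (r r' : G.Walk a b), r.IsPath → r'.IsPath → r.support = r'.support := by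
    intro a b r r' hr hr'
    have := (hG.subsingleton_path a b).elim ⟨r, hr⟩ ⟨r', hr'⟩
    rw [Subtype.mk.injEq] at this
    rw [this]
  have hh : q.support = q'.support := by
    have h1 := key _ _ q (q'.copy e0.symm e1.symm) hq (by simpa using hq')
    simpa using h1
  rw [hs, hs'] at hh
  have hl := congrArg List.length hh
  simp only [List.length_map, List.length_range] at hl
  refine ⟨hl, fun i hi => ?_⟩
  subst hl
  have := List.map_inj_left.1 hh i (by simpa using hi)
  exact this

lemma path_induced (hG : G.IsAcyclic) (hp : IsP G S n p) {i j : ℕ} (hij : i < j) (hj : j < n)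
    (hadj : G.Adj (p i) (p j)) : j = i + 1 := by
  have h1 : IsP G Set.univ (j - i + 1) (fun b => p (i + b)) :=
    hp.fwd i _ (by omega) (fun _ _ => Set.mem_univ _)
  have h2 : IsP G Set.univ 2 (fun b => if b = 0 then p i else p j) := by
    refine ⟨?_, ?_, fun _ _ => Set.mem_univ _⟩
    · intro a b ha hb e
      have hne := hadj.ne
      by_cases ha' : a = 0 <;> by_cases hb' : b = 0 <;> simp_all
      omega
    · intro a ha
      have : a = 0 := by omega
      subst this
      simpa using hadj
  have := (path_unique hG (by omega) (by omega) h1 h2 (by simp) (by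
    simp only [Nat.add_sub_cancel]
    rw [show i + (j - i) = j by omega]
    simp)).1
  omega

/-- uniqueness of attachment, ordered case -/
lemma attach_aux (hG : G.IsAcyclic) {T : Set V} (hp : IsP G S n p) {u : ℕ → V} (hm : 0 < m)
    (hu : IsP G T m u) (hT : ∀ x ∈ T, ∀ i, i < n → p i ≠ x) {i j : ℕ} (hij : i < j) (hj : j < n)
    (h0 : G.Adj (u 0) (p i)) (h1 : G.Adj (u (m - 1)) (p j)) : False := by
  have q1 : IsP G Set.univ (j - i + 2) (fun b => if b = 0 then u 0 else p (i + (b - 1))) := by
    refine ⟨?_, ?_, fun _ _ => Set.mem_univ _⟩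
    · intro a b ha hb e
      split_ifs at e with c1 c2 c2
      · omega
      · exact absurd e.symm (hT _ (hu.mem 0 hm) _ (by omega))
      · exact absurd e (hT _ (hu.mem 0 hm) _ (by omega))
      · have := hp.inj _ _ (by omega) (by omega) e
        omega
    · intro a ha
      rw [if_neg (show ¬ (a + 1 = 0) by omega)]
      split_ifs with c
      · subst c; simpa using h0
      · have := hp.adj (i + (a - 1)) (by omega)
        rw [show i + (a - 1) + 1 = i + (a + 1 - 1) by omega] at this
        exact this
  have q2 : IsP G Set.univ (m + 1) (fun b => if b < m then u b else p j) := by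
    refine ⟨?_, ?_, fun _ _ => Set.mem_univ _⟩
    · intro a b ha hb e
      split_ifs at e with c1 c2 c2
      · exact hu.inj _ _ c1 c2 e
      · exact absurd e.symm (hT _ (hu.mem _ c1) _ hj)
      · exact absurd e (hT _ (hu.mem _ c2) _ hj)
      · omega
    · intro a ha
      rw [if_pos (show a < m by omega)]
      split_ifs with c
      · exact hu.adj a c
      · have : a = m - 1 := by omega
        subst this
        exact h1
  have := (path_unique hG (by omega) (by omega) q1 q2 (by simp [hm]) (by
    simp only [Nat.add_sub_cancel]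
    rw [if_neg (by omega), if_neg (by omega)]
    congr 1
    omega)).2 1 (by omega)
  simp only [one_ne_zero, if_false, Nat.sub_self, Nat.add_zero] at this
  split_ifs at this with c
  · exact hT _ (hu.mem 1 c) _ (by omega) this
  · have := hp.inj _ _ (by omega) (by omega) this
    omega

lemma attach_unique (hG : G.IsAcyclic) {T : Set V} (hp : IsP G S n p) {u : ℕ → V} (hm : 0 < m)
    (hu : IsP G T m u) (hT : ∀ x ∈ T, ∀ i, i < n → p i ≠ x) {i j : ℕ} (hi : i < n) (hj : j < n)
    (h0 : G.Adj (u 0) (p i)) (h1 : G.Adj (u (m - 1)) (p j)) : i = j := by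
  rcases lt_trichotomy i j with h | h | h
  · exact (attach_aux hG hp hm hu hT h hj h0 h1).elim
  · exact h
  · refine (attach_aux hG hp hm (hu.bwd (K := T) (m - 1) m (by omega) (by omega)
      (fun b hb => hu.mem _ (by omega))) hT h hi ?_ ?_).elim
    · simpa using h1
    · simpa using h0

lemma gap (hG : G.IsAcyclic) (hp : IsP G S n p) (hv : IsP G S m v) {l r : ℕ} (hlr : l < r)
    (hr : r < m) (hl1 : ∃ i, i < n ∧ p i = v l) (hr1 : ∃ i, i < n ∧ p i = v r)
    (hb : ∀ a, l < a → a < r → ¬ ∃ i, i < n ∧ p i = v a) : r = l + 1 := by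
  by_contra hne
  obtain ⟨i, hi, hi2⟩ := hl1
  obtain ⟨j, hj, hj2⟩ := hr1
  have hu : IsP G {x | ∀ i, i < n → p i ≠ x} (r - l - 1) (fun b => v (l + 1 + b)) := by
    apply hv.fwd _ _ (by omega)
    intro b hb' i hi hi'
    exact hb (l + 1 + b) (by omega) (by omega) ⟨i, hi, hi'⟩
  have := attach_unique hG hp (by omega) hu (fun x hx => hx) hi hj (by
    simp only [Nat.add_zero]
    rw [hi2]
    exact (hv.adj l (by omega)).symm) (by
    rw [show l + 1 + (r - l - 1 - 1) = r - 1 by omega, hj2]
    have := hv.adj (r - 1) (by omega)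
    rwa [show r - 1 + 1 = r by omega] at this)
  subst this
  have := hv.inj l r (by omega) hr (by rw [← hi2, ← hj2])
  omega

lemma between (hG : G.IsAcyclic) (hp : IsP G S n p) (hv : IsP G S m v) : ∀ (d l r : ℕ), r - l ≤ d →
    l < r → r < m → (∃ i, i < n ∧ p i = v l) → (∃ i, i < n ∧ p i = v r) →
    ∀ c, l < c → c < r → ∃ i, i < n ∧ p i = v c := by
  intro d
  induction d with
  | zero => intro l r h1 h2; omega
  | succ d ih =>
    intro l r hd hlr hr hl1 hr1 c hc1 hc2
    by_cases h : ∃ a, l < a ∧ a < r ∧ ∃ i, i < n ∧ p i = v a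
    · obtain ⟨a, ha1, ha2, ha3⟩ := h
      rcases lt_trichotomy c a with hca | hca | hca
      · exact ih l a (by omega) ha1 (by omega) hl1 ha3 c hc1 hca
      · subst hca; exact ha3
      · exact ih a r (by omega) ha2 hr ha3 hr1 c hca hc2
    · push Not at h
      have := gap hG hp hv hlr hr hl1 hr1 (by
        rintro a ha1 ha2 ⟨i, hi, hi'⟩
        exact h a ha1 ha2 i hi hi')
      omega

lemma mono_seq (π : ℕ → ℕ) : ∀ h : ℕ, 0 < h →
    (∀ b, b + 1 < h → π (b + 1) = π b + 1 ∨ π b = π (b + 1) + 1) →
    (∀ a b, a < h → b < h → π a = π b → a = b) →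
    (∀ b, b < h → π b = π 0 + b) ∨ (∀ b, b < h → π b + b = π 0) := by
  intro h
  induction h with
  | zero => omega
  | succ h ih =>
    intro _ h1 h2
    rcases Nat.lt_or_ge h 2 with hh | hh
    · rcases Nat.eq_zero_or_pos h with h0 | h0
      · subst h0
        left
        intro b hb
        have : b = 0 := by omega
        simp [this]
      · have h3 : h = 1 := by omega
        subst h3
        rcases h1 0 (by omega) with h4 | h4
        · left
          intro b hb
          rcases Nat.eq_zero_or_pos b with hb0 | hb0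
          · simp [hb0]
          · have : b = 1 := by omega
            subst this; exact h4
        · right
          intro b hb
          rcases Nat.eq_zero_or_pos b with hb0 | hb0
          · simp [hb0]
          · have : b = 1 := by omega
            subst this; simp at h4; omega
    · have h3 := h1 (h - 1) (by omega)
      rw [show h - 1 + 1 = h by omega] at h3
      rcases ih (by omega) (fun b hb => h1 b (by omega))
        (fun a b ha hb => h2 a b (by omega) (by omega)) with h4 | h4
      · left
        have h5 := h4 (h - 1) (by omega)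
        have h6 := h4 (h - 2) (by omega)
        intro b hb
        rcases Nat.lt_or_ge b h with hb' | hb'
        · exact h4 b hb'
        · have : b = h := by omega
          subst this
          rcases h3 with h3 | h3
          · omega
          · have := h2 b (b - 2) (by omega) (by omega) (by omega)
            omega
      · right
        have h5 := h4 (h - 1) (by omega)
        have h6 := h4 (h - 2) (by omega)
        intro b hb
        rcases Nat.lt_or_ge b h with hb' | hb'
        · exact h4 b hb'
        · have : b = h := by omega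
          subst this
          rcases h3 with h3 | h3
          · have := h2 b (b - 2) (by omega) (by omega) (by omega)
            omega
          · omega

/-- how a path of `S` meets the path `p` -/
lemma struct (hG : G.IsAcyclic) (hp : IsP G S n p) (hv : IsP G S m v) :
    (∀ a, a < m → ¬ ∃ i, i < n ∧ p i = v a) ∨
    ∃ s h i, 0 < h ∧ s + h ≤ m ∧ (∀ a, a < s → ¬ ∃ i, i < n ∧ p i = v a) ∧
      (∀ a, s + h ≤ a → a < m → ¬ ∃ i, i < n ∧ p i = v a) ∧
      ((i + h ≤ n ∧ ∀ b, b < h → v (s + b) = p (i + b)) ∨
        (h ≤ i + 1 ∧ i < n ∧ ∀ b, b < h → v (s + b) = p (i - b))) := by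
  by_cases hex : ∃ a, a < m ∧ ∃ i, i < n ∧ p i = v a
  swap
  · left
    intro a ha h
    exact hex ⟨a, ha, h⟩
  right
  have hs := Nat.find_spec hex
  have hsmin : ∀ a, a < Nat.find hex → ¬ ∃ i, i < n ∧ p i = v a := by
    intro a ha h
    exact Nat.find_min hex ha ⟨by omega, h⟩
  obtain ⟨s, hs'⟩ : ∃ s, s = Nat.find hex := ⟨_, rfl⟩
  rw [← hs'] at hs hsmin
  -- last index
  obtain ⟨e, he1, he2, he3⟩ : ∃ e, e < m ∧ (∃ i, i < n ∧ p i = v e) ∧
      ∀ a, e < a → a < m → ¬ ∃ i, i < n ∧ p i = v a := by
    have hne : ((Finset.range m).filter (fun a => ∃ i, i < n ∧ p i = v a)).Nonempty :=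
      ⟨s, by simpa using hs⟩
    refine ⟨Finset.max' _ hne, ?_, ?_, ?_⟩
    · have := Finset.max'_mem _ hne
      rw [Finset.mem_filter, Finset.mem_range] at this
      exact this.1
    · have := Finset.max'_mem _ hne
      rw [Finset.mem_filter, Finset.mem_range] at this
      exact this.2
    · intro a ha1 ha2 ha3
      have := Finset.le_max' ((Finset.range m).filter (fun a => ∃ i, i < n ∧ p i = v a)) a
        (by rw [Finset.mem_filter, Finset.mem_range]; exact ⟨ha2, ha3⟩)
      omega
  have hse : s ≤ e := by
    by_contra hc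
    exact hsmin e (by omega) he2
  have hall : ∀ a, s ≤ a → a ≤ e → ∃ i, i < n ∧ p i = v a := by
    intro a h1 h2
    rcases Nat.eq_or_lt_of_le h1 with h3 | h3
    · subst h3; exact hs.2
    · rcases Nat.eq_or_lt_of_le h2 with h4 | h4
      · subst h4; exact he2
      · exact between hG hp hv _ s e le_rfl (by omega) he1 hs.2 he2 a h3 h4
  let π : ℕ → ℕ := fun b => if hb : s + b ≤ e then (hall (s + b) (by omega) hb).choose else 0
  have hπ : ∀ b, s + b ≤ e → π b < n ∧ p (π b) = v (s + b) := by
    intro b hb
    have := (hall (s + b) (by omega) hb).choose_spec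
    simp only [π, dif_pos hb]
    exact this
  have hstep : ∀ b, b + 1 < e - s + 1 → π (b + 1) = π b + 1 ∨ π b = π (b + 1) + 1 := by
    intro b hb
    have h1 := hπ b (by omega)
    have h2 := hπ (b + 1) (by omega)
    have hadj := hv.adj (s + b) (by omega)
    rw [← h1.2, show s + b + 1 = s + (b + 1) by omega, ← h2.2] at hadj
    rcases lt_trichotomy (π b) (π (b + 1)) with h | h | h
    · left; exact path_induced hG hp h h2.1 hadj
    · rw [h] at hadj; exact absurd rfl hadj.ne
    · right; exact path_induced hG hp h h1.1 hadj.symm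
  have hinj : ∀ a b, a < e - s + 1 → b < e - s + 1 → π a = π b → a = b := by
    intro a b ha hb hab
    have h1 := hπ a (by omega)
    have h2 := hπ b (by omega)
    have := hv.inj (s + a) (s + b) (by omega) (by omega) (by rw [← h1.2, ← h2.2, hab])
    omega
  refine ⟨s, e - s + 1, π 0, by omega, by omega, hsmin, ?_, ?_⟩
  · intro a ha1 ha2
    exact he3 a (by omega) ha2
  · rcases mono_seq π (e - s + 1) (by omega) hstep hinj with h | h
    · left
      refine ⟨?_, ?_⟩
      · have h1 := h (e - s) (by omega)
        have h2 := (hπ (e - s) (by omega)).1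
        omega
      · intro b hb
        rw [← (hπ b (by omega)).2, h b hb]
    · right
      refine ⟨?_, (hπ 0 (by omega)).1, ?_⟩
      · have h1 := h (e - s) (by omega)
        omega
      · intro b hb
        have := h b hb
        rw [← (hπ b (by omega)).2]
        congr 1
        omega

lemma reach_of_path (hv : IsP G S m v) : ∀ d a, a + d < m → (res G S).Reachable (v a) (v (a + d)) := by
  intro d
  induction d with
  | zero => intro a _; exact SimpleGraph.Reachable.refl _
  | succ d ih =>
    intro a ha
    refine (ih a (by omega)).trans (SimpleGraph.Adj.reachable ?_)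
    exact ⟨hv.adj (a + d) (by omega), hv.mem _ (by omega), hv.mem _ (by omega)⟩

lemma path_of_reach {a b : V} (h : (res G S).Reachable a b) (ha : a ∈ S) :
    ∃ m v, 0 < m ∧ IsP G S m v ∧ v 0 = a ∧ v (m - 1) = b := by
  obtain ⟨q, hq⟩ := h.exists_isPath
  refine ⟨q.length + 1, q.getVert, by omega, ⟨?_, ?_, ?_⟩, by simp, by simp⟩
  · intro i j hi hj e
    exact hq.getVert_injOn (by simp; omega) (by simp; omega) e
  · intro i hi
    exact (q.adj_getVert_succ (by omega)).1
  · intro i hi
    rcases Nat.eq_zero_or_pos i with h0 | h0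
    · subst h0; simpa using ha
    · have := (q.adj_getVert_succ (i := i - 1) (by omega)).2.2
      rwa [show i - 1 + 1 = i by omega] at this

end Pool.Agent.H229R3.NR
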