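import Mathlib
import Pool.Agent.H229R3.NR.Count

set_option autoImplicit false

namespace Pool.Agent.H229R3.NR

open Finset Classical

/-- index type of the rules of length `v` -/
abbrev Idx (J : Type) (v : ℕ) : Type := Fin 3 ⊕ (Fin 3 × Fin (2 * v + 1) × J × Bool)

/-- the rules -/
def Rl {J : Type} (F : J → ℕ → ℕ → ℕ) (v : ℕ) : Idx J v → List ℕ → List ℕ
  | Sum.inl k, l => (l.drop (3 * v - 2 + k - v)).take v
  | Sum.inr (κ, o, j, true), _ => (List.range v).map (fun b => F j (3 * v - 2 + κ) (o + b))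
  | Sum.inr (κ, o, j, false), _ =>
      (List.range v).map (fun b => F j (3 * v - 2 + κ) (o + (v - 1 - b)))

lemma sum_bound (J : Type) [Fintype J] (n : ℕ) :
    ∑ v ∈ Finset.Icc 1 (n + 1), Fintype.card (Idx J v) * 2 ^ (n + 1 - v) ≤
      (60 * Fintype.card J + 6) * 2 ^ n := by
  have h : ∀ n : ℕ, ∑ v ∈ Finset.Icc 1 (n + 1), Fintype.card (Idx J v) * 2 ^ (n + 1 - v) +
      (3 + 6 * Fintype.card J * (2 * n + 7)) = (60 * Fintype.card J + 6) * 2 ^ n := by
    intro n
    induction n with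
    | zero =>
      simp [Fintype.card_sum, Fintype.card_prod]
      ring
    | succ n ih =>
      rw [Finset.sum_Icc_succ_top (by omega)]
      have h1 : ∑ v ∈ Finset.Icc 1 (n + 1), Fintype.card (Idx J v) * 2 ^ (n + 1 + 1 - v) =
          2 * ∑ v ∈ Finset.Icc 1 (n + 1), Fintype.card (Idx J v) * 2 ^ (n + 1 - v) := by
        rw [Finset.mul_sum]
        apply Finset.sum_congr rfl
        intro v hv
        rw [mem_Icc] at hv
        rw [show n + 1 + 1 - v = (n + 1 - v) + 1 by omega, pow_succ]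
        ring
      rw [h1]
      have h2 : Fintype.card (Idx J (n + 1 + 1)) = 3 + 6 * Fintype.card J * (2 * n + 5) := by
        simp [Fintype.card_sum, Fintype.card_prod]
        ring
      rw [h2, Nat.sub_self, pow_zero, mul_one, pow_succ]
      nlinarith [ih]
  have := h n
  omega

lemma take_rev (f : ℕ → ℕ) (m v : ℕ) (hv : v ≤ m) :
    ((List.range m).reverse.map f).take v = (List.range v).map (fun b => f (m - 1 - b)) := by
  apply List.ext_getElem
  · simp; omega
  · intro i h1 h2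
    simp

lemma drop_rev (f : ℕ → ℕ) (m v : ℕ) :
    ((List.range m).reverse.map f).drop v = (List.range (m - v)).reverse.map f := by
  apply List.ext_getElem
  · simp
  · intro i h1 h2
    simp at h1 h2 ⊢
    congr 1
    omega

theorem path_colouring (J : Type) [Fintype J] (F : J → ℕ → ℕ → ℕ) (L : ℕ → Finset ℕ)
    (hL : ∀ n, 60 * Fintype.card J + 8 ≤ (L n).card) (n : ℕ) :
    ∃ f : ℕ → ℕ, (∀ i, i < n → f i ∈ L i) ∧
      (∀ t i, 1 ≤ t → i + t + (t + 2) / 3 ≤ n → ¬ ∀ b, b < (t + 2) / 3 → f (i + b) = f (i + t + b)) ∧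
      (∀ j m o i, 1 ≤ m → o + (m + 2) / 3 ≤ m → i + (m + 2) / 3 ≤ n →
        ¬ ∀ b, b < (m + 2) / 3 → f (i + b) = F j m (o + b)) ∧
      (∀ j m o i, 1 ≤ m → o + (m + 2) / 3 ≤ m → (m + 2) / 3 ≤ i + 1 → i < n →
        ¬ ∀ b, b < (m + 2) / 3 → f (i - b) = F j m (o + b)) := by
  obtain ⟨f, hf, hok⟩ := exists_fun (Rl F) L (60 * Fintype.card J + 6)
    (fun n => by have := hL n; omega) (sum_bound J) n
  refine ⟨f, hf, ?_, ?_, ?_⟩
  · intro t i ht hn hb
    obtain ⟨v, hv⟩ : ∃ v, v = (t + 2) / 3 := ⟨_, rfl⟩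
    rw [← hv] at hn hb
    have hk : t - (3 * v - 2) < 3 := by omega
    have := hok (i + t + v) hn v (by omega) (by simp) (Sum.inl ⟨t - (3 * v - 2), hk⟩)
    apply this
    simp only [Rl]
    rw [take_rev _ _ _ (by omega), drop_rev, drop_rev, take_rev _ _ _ (by omega)]
    apply List.map_congr_left
    intro b hb'
    rw [List.mem_range] at hb'
    have h1 := hb (v - 1 - b) (by omega)
    rw [show i + t + v - 1 - b = i + t + (v - 1 - b) by omega, ← h1]
    congr 1
    omega
  · intro j m o i hm ho hn hb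
    obtain ⟨v, hv⟩ : ∃ v, v = (m + 2) / 3 := ⟨_, rfl⟩
    rw [← hv] at hn hb ho
    have hk : m - (3 * v - 2) < 3 := by omega
    have := hok (i + v) hn v (by omega) (by simp)
      (Sum.inr (⟨m - (3 * v - 2), hk⟩, ⟨o, by omega⟩, j, false))
    apply this
    simp only [Rl]
    rw [take_rev _ _ _ (by omega)]
    apply List.map_congr_left
    intro b hb'
    rw [List.mem_range] at hb'
    have h1 := hb (v - 1 - b) (by omega)
    rw [show i + v - 1 - b = i + (v - 1 - b) by omega, h1]
    congr 1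
    omega
  · intro j m o i hm ho hi hn hb
    obtain ⟨v, hv⟩ : ∃ v, v = (m + 2) / 3 := ⟨_, rfl⟩
    rw [← hv] at hi hb ho
    have hk : m - (3 * v - 2) < 3 := by omega
    have := hok (i + 1) hn v (by omega) (by simp; omega)
      (Sum.inr (⟨m - (3 * v - 2), hk⟩, ⟨o, by omega⟩, j, true))
    apply this
    simp only [Rl]
    rw [take_rev _ _ _ (by omega)]
    apply List.map_congr_left
    intro b hb'
    rw [List.mem_range] at hb'
    have h1 := hb b (by omega)
    rw [show i + 1 - 1 - b = i - b by omega, h1]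
    congr 1
    omega

end Pool.Agent.H229R3.NR
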