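import Mathlib
import Pool.Agent.H229R3.NR.Geo

set_option autoImplicit false

namespace Pool.Agent.H229R3.NR

open Classical

variable {V : Type}

/-- the vertices of `S` off the path `p` -/
def Off (S : Set V) (n : ℕ) (p : ℕ → V) : Set V := {x | x ∈ S ∧ ¬ ∃ i, i < n ∧ p i = x}

/-- the component of `x` in `T` -/
def Comp (G : SimpleGraph V) (T : Set V) (x : V) : Set V := {y | y ∈ T ∧ (res G T).Reachable x y}

/-- the new forbidden words, for a component attached at `p i` -/
def Fn {J : Type} (f : ℕ → ℕ) (F : J → ℕ → ℕ → ℕ) (i : ℕ) :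
    (Fin 3 × Bool) ⊕ (J × Fin 3 × Bool) → ℕ → ℕ → ℕ
  | Sum.inl (r, true), g, b => f (i + (3 * (g - 1) + r) - b)
  | Sum.inl (r, false), g, b => f (i - (3 * (g - 1) + r) + b)
  | Sum.inr (j, κ, true), g, b => F j (3 * g - 2 + κ) b
  | Sum.inr (j, κ, false), g, b => F j (3 * g - 2 + κ) (3 * g - 2 + κ - g + b)

structure Setup {J : Type} (G : SimpleGraph V) (S : Set V) (n : ℕ) (p : ℕ → V) (f : ℕ → ℕ)
    (φ : V → ℕ) (att : V → ℕ) (F : J → ℕ → ℕ → ℕ) : Prop where
  hG : G.IsAcyclic
  hp : IsP G S n p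
  hφ : ∀ i, i < n → φ (p i) = f i
  good : ∀ t i, 1 ≤ t → i + t + (t + 2) / 3 ≤ n →
    ¬ ∀ b, b < (t + 2) / 3 → f (i + b) = f (i + t + b)
  w1 : ∀ j m o i, 1 ≤ m → o + (m + 2) / 3 ≤ m → i + (m + 2) / 3 ≤ n →
    ¬ ∀ b, b < (m + 2) / 3 → f (i + b) = F j m (o + b)
  w2 : ∀ j m o i, 1 ≤ m → o + (m + 2) / 3 ≤ m → (m + 2) / 3 ≤ i + 1 → i < n →
    ¬ ∀ b, b < (m + 2) / 3 → f (i - b) = F j m (o + b)
  hatt : ∀ x ∈ Off S n p, ∀ i, i < n → G.Adj x (p i) → att x = i
  k1 : ∀ x ∈ Off S n p, ∀ t u, 0 < t → IsP G (Comp G (Off S n p) x) (2 * t) u →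
    ¬ ∀ a, a < t → φ (u a) = φ (u (a + t))
  k2 : ∀ x ∈ Off S n p, ∀ j g u, 0 < g → IsP G (Comp G (Off S n p) x) g u →
    ¬ ∀ b, b < g → φ (u b) = Fn f F (att x) j g b

variable {G : SimpleGraph V} {S : Set V} {m n : ℕ} {v p : ℕ → V}

lemma run_mem {T : Set V} (hv : IsP G S m v) {lo hi : ℕ} (hhi : hi ≤ m)
    (hT : ∀ a, lo ≤ a → a < hi → v a ∈ T) {a b : ℕ} (ha : lo ≤ a) (ha' : a < hi) (hb : lo ≤ b)
    (hb' : b < hi) : v b ∈ Comp G T (v a) := by
  refine ⟨hT b hb hb', ?_⟩
  have key : ∀ a b, lo ≤ a → a ≤ b → b < hi → (res G T).Reachable (v a) (v b) := by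
    intro a b h1 h2 h3
    have hq : IsP G T (b - a + 1) (fun c => v (a + c)) :=
      hv.fwd a _ (by omega) (fun c hc => hT _ (by omega) (by omega))
    have := reach_of_path hq (b - a) 0 (by omega)
    simp only [Nat.add_zero, Nat.zero_add] at this
    rwa [show a + (b - a) = b by omega] at this
  rcases le_total a b with h | h
  · exact key a b ha h hb'
  · exact (key b a hb h ha').symm

variable {J : Type} {f : ℕ → ℕ} {φ : V → ℕ} {att : V → ℕ} {F : J → ℕ → ℕ → ℕ}

lemma Setup.kf (H : Setup G S n p f φ att F) (hv : IsP G S m v) {lo hi : ℕ} (hhi : hi ≤ m)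
    (hT : ∀ a, lo ≤ a → a < hi → v a ∈ Off S n p) (a1 a g : ℕ) (h1 : lo ≤ a1) (h2 : a1 < hi)
    (ha : lo ≤ a) (hg : 0 < g) (hag : a + g ≤ hi) (j) :
    ¬ ∀ b, b < g → φ (v (a + b)) = Fn f F (att (v a1)) j g b := by
  intro hb
  refine H.k2 (v a1) (hT _ h1 h2) j g (fun b => v (a + b)) hg ?_ hb
  exact hv.fwd a g (by omega) (fun b hb => run_mem hv hhi hT h1 h2 (by omega) (by omega))

lemma Setup.kb (H : Setup G S n p f φ att F) (hv : IsP G S m v) {lo hi : ℕ} (hhi : hi ≤ m)
    (hT : ∀ a, lo ≤ a → a < hi → v a ∈ Off S n p) (a1 a g : ℕ) (h1 : lo ≤ a1) (h2 : a1 < hi)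
    (ha : a < hi) (hg : 0 < g) (hag : lo + g ≤ a + 1) (j) :
    ¬ ∀ b, b < g → φ (v (a - b)) = Fn f F (att (v a1)) j g b := by
  intro hb
  refine H.k2 (v a1) (hT _ h1 h2) j g (fun b => v (a - b)) hg ?_ hb
  exact hv.bwd a g (by omega) (by omega)
    (fun b hb => run_mem hv hhi hT h1 h2 (by omega) (by omega))

lemma Setup.sq_plus (H : Setup G S n p f φ att F) {t s h i : ℕ} (ht : 0 < t)
    (hv : IsP G S (2 * t) v) (hsq : ∀ a, a < t → φ (v a) = φ (v (a + t))) (hh : 0 < h)
    (hsh : s + h ≤ 2 * t) (h1 : ∀ a, a < s → v a ∈ Off S n p)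
    (h2 : ∀ a, s + h ≤ a → a < 2 * t → v a ∈ Off S n p) (hin : i + h ≤ n)
    (h3 : ∀ b, b < h → v (s + b) = p (i + b)) : False := by
  have hT1 : ∀ a, 0 ≤ a → a < s → v a ∈ Off S n p := fun a _ ha => h1 a ha
  have hc : ∀ b, b < h → φ (v (s + b)) = f (i + b) := by
    intro b hb
    rw [h3 b hb, H.hφ _ (by omega)]
  have hatt : 0 < s → att (v (s - 1)) = i := by
    intro hs
    apply H.hatt _ (h1 _ (by omega)) i (by omega)
    have := hv.adj (s - 1) (by omega)
    have h4 := h3 0 hh
    simp only [Nat.add_zero] at h4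
    rwa [show s - 1 + 1 = s by omega, h4] at this
  have hatt' : s + h < 2 * t → att (v (s + h)) = i + h - 1 := by
    intro hs
    apply H.hatt _ (h2 _ (by omega) hs) (i + h - 1) (by omega)
    have := hv.adj (s + h - 1) (by omega)
    have h4 := h3 (h - 1) (by omega)
    rw [show s + h - 1 + 1 = s + h by omega, show s + h - 1 = s + (h - 1) by omega, h4,
      show i + (h - 1) = i + h - 1 by omega] at this
    exact this.symm
  have hst : s < t := by
    by_contra hc'
    have hatt := hatt (by omega)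
    refine H.kf hv (by omega) hT1 (s - 1) (s - t) 1 (by omega) (by omega) (by omega) (by omega)
      (by omega) (Sum.inl (0, true)) ?_
    intro b hb
    have : b = 0 := by omega
    subst this
    rw [hatt, Nat.add_zero, hsq (s - t) (by omega), show s - t + t = s + 0 by omega, hc 0 hh]
    simp [Fn]
  have hts : t < s + h := by
    by_contra hc'
    have hatt := hatt' (by omega)
    refine H.kf hv le_rfl h2 (s + h) (s + h - 1 + t) 1 (by omega) (by omega) (by omega) (by omega)
      (by omega) (Sum.inl (0, false)) ?_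
    intro b hb
    have : b = 0 := by omega
    subst this
    rw [hatt, Nat.add_zero, ← hsq (s + h - 1) (by omega), show s + h - 1 = s + (h - 1) by omega,
      hc (h - 1) (by omega)]
    simp [Fn]
    congr 1
    omega
  rcases Nat.lt_or_ge t h with hth | hth
  · -- long overlap
    obtain ⟨g, hg⟩ : ∃ g, g = (t + 2) / 3 := ⟨_, rfl⟩
    have hu : h - t < g := by
      by_contra hu
      refine H.good t i (by omega) (by omega) ?_
      intro b hb
      rw [← hg] at hb
      rw [← hc b (by omega), show i + t + b = i + (t + b) by omega, ← hc (t + b) (by omega),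
        hsq (s + b) (by omega)]
      congr 2
      omega
    obtain ⟨r, hr⟩ : ∃ r, r = t - 1 - 3 * (g - 1) := ⟨_, rfl⟩
    have hr3 : r < 3 := by omega
    by_cases hsg : g ≤ s
    · have hatt := hatt (by omega)
      refine H.kb hv (by omega) hT1 (s - 1) (s - 1) g (by omega) (by omega) (by omega) (by omega)
        (by omega) (Sum.inl (⟨r, hr3⟩, true)) ?_
      intro b hb
      rw [hatt, hsq _ (by omega), show s - 1 - b + t = s + (t - 1 - b) by omega,
        hc _ (by omega)]
      simp only [Fn]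
      congr 1
      omega
    · have hatt := hatt' (by omega)
      refine H.kf hv le_rfl h2 (s + h) (s + h) g (by omega) (by omega) (by omega) (by omega)
        (by omega) (Sum.inl (⟨r, hr3⟩, false)) ?_
      intro b hb
      have := hsq (s + h + b - t) (by omega)
      rw [show s + h + b - t + t = s + h + b by omega] at this
      rw [hatt, ← this, show s + h + b - t = s + (h + b - t) by omega, hc _ (by omega)]
      simp only [Fn]
      congr 1
      omega
  · -- short overlap
    obtain ⟨g, hg⟩ : ∃ g, g = (h + 2) / 3 := ⟨_, rfl⟩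
    obtain ⟨r, hr⟩ : ∃ r, r = h - 1 - 3 * (g - 1) := ⟨_, rfl⟩
    have hr3 : r < 3 := by omega
    by_cases hsg : g ≤ s + h - t
    · have hatt := hatt (by omega)
      refine H.kb hv (by omega) hT1 (s - 1) (s + h - 1 - t) g (by omega) (by omega) (by omega)
        (by omega) (by omega) (Sum.inl (⟨r, hr3⟩, true)) ?_
      intro b hb
      rw [hatt, hsq _ (by omega), show s + h - 1 - t - b + t = s + (h - 1 - b) by omega,
        hc _ (by omega)]
      simp only [Fn]
      congr 1
      omega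
    · have hatt := hatt' (by omega)
      refine H.kf hv le_rfl h2 (s + h) (s + t) g (by omega) (by omega) (by omega) (by omega)
        (by omega) (Sum.inl (⟨r, hr3⟩, false)) ?_
      intro b hb
      have := hsq (s + b) (by omega)
      rw [show s + b + t = s + t + b by omega] at this
      rw [hatt, ← this, hc _ (by omega)]
      simp only [Fn]
      congr 1
      omega

lemma Setup.no_sq (H : Setup G S n p f φ att F) {t : ℕ} (ht : 0 < t)
    (hv : IsP G S (2 * t) v) : ¬ ∀ a, a < t → φ (v a) = φ (v (a + t)) := by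
  intro hsq
  rcases struct H.hG H.hp hv with h | ⟨s, h, i, hh, hsh, h1, h2, h3⟩
  · have hT : ∀ a, 0 ≤ a → a < 2 * t → v a ∈ Off S n p := fun a _ ha => ⟨hv.mem a ha, h a ha⟩
    refine H.k1 (v 0) (hT 0 le_rfl (by omega)) t v ht ?_ hsq
    exact ⟨hv.inj, hv.adj, fun b hb => run_mem hv le_rfl hT le_rfl (by omega) (by omega) hb⟩
  · have h1' : ∀ a, a < s → v a ∈ Off S n p := fun a ha => ⟨hv.mem a (by omega), h1 a ha⟩
    have h2' : ∀ a, s + h ≤ a → a < 2 * t → v a ∈ Off S n p :=
      fun a ha ha' => ⟨hv.mem a ha', h2 a ha ha'⟩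
    rcases h3 with ⟨h3, h4⟩ | ⟨h3, hi, h4⟩
    · exact H.sq_plus ht hv hsq hh hsh h1' h2' h3 h4
    · have hv' : IsP G S (2 * t) (fun b => v (2 * t - 1 - b)) :=
        hv.bwd (2 * t - 1) (2 * t) (by omega) (by omega) (fun b hb => hv.mem _ (by omega))
      refine H.sq_plus (s := 2 * t - s - h) (h := h) (i := i + 1 - h) ht hv' ?_ hh (by omega)
        ?_ ?_ (by omega) ?_
      · intro a ha
        have := hsq (t - 1 - a) (by omega)
        rw [show 2 * t - 1 - a = t - 1 - a + t by omega, ← this]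
        congr 2
        omega
      · intro a ha
        exact h2' _ (by omega) (by omega)
      · intro a ha ha'
        exact h1' _ (by omega)
      · intro b hb
        have := h4 (h - 1 - b) (by omega)
        rw [show 2 * t - 1 - (2 * t - s - h + b) = s + (h - 1 - b) by omega, this]
        congr 1
        omega

lemma Setup.no_word (H : Setup G S n p f φ att F) (hm : 0 < m)
    (hv : IsP G S m v) (j : J) : ¬ ∀ b, b < m → φ (v b) = F j m b := by
  intro hw
  obtain ⟨g, hg⟩ : ∃ g, g = (m + 2) / 3 := ⟨_, rfl⟩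
  obtain ⟨r, hr⟩ : ∃ r, r = m - (3 * g - 2) := ⟨_, rfl⟩
  have hr3 : r < 3 := by omega
  have hmr : 3 * g - 2 + r = m := by omega
  rcases struct H.hG H.hp hv with h | ⟨s, h, i, hh, hsh, h1, h2, h3⟩
  · have hT : ∀ a, 0 ≤ a → a < m → v a ∈ Off S n p := fun a _ ha => ⟨hv.mem a ha, h a ha⟩
    refine H.kf hv le_rfl hT 0 0 g le_rfl hm le_rfl (by omega) (by omega)
      (Sum.inr (j, ⟨r, hr3⟩, true)) ?_
    intro b hb
    simp only [Fn]
    rw [hmr, Nat.zero_add, hw b (by omega)]
  · have h1' : ∀ a, 0 ≤ a → a < s → v a ∈ Off S n p := fun a _ ha => ⟨hv.mem a (by omega), h1 a ha⟩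
    have h2' : ∀ a, s + h ≤ a → a < m → v a ∈ Off S n p :=
      fun a ha ha' => ⟨hv.mem a ha', h2 a ha ha'⟩
    by_cases hs1 : g ≤ s
    · refine H.kf hv (by omega) h1' 0 0 g le_rfl (by omega) le_rfl (by omega) (by omega)
        (Sum.inr (j, ⟨r, hr3⟩, true)) ?_
      intro b hb
      simp only [Fn]
      rw [hmr, Nat.zero_add, hw b (by omega)]
    · by_cases hs2 : g ≤ m - (s + h)
      · refine H.kf hv le_rfl h2' (s + h) (m - g) g le_rfl (by omega) (by omega) (by omega)
          (by omega) (Sum.inr (j, ⟨r, hr3⟩, false)) ?_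
        intro b hb
        simp only [Fn]
        rw [hmr, hw _ (by omega)]
      · rcases h3 with ⟨h3, h4⟩ | ⟨h3, hi, h4⟩
        · refine H.w1 j m s i (by omega) (by omega) (by omega) ?_
          intro b hb
          rw [← hw (s + b) (by omega), h4 b (by omega), H.hφ _ (by omega)]
        · refine H.w2 j m s i (by omega) (by omega) (by omega) hi ?_
          intro b hb
          rw [← hw (s + b) (by omega), h4 b (by omega), H.hφ _ (by omega)]

end Pool.Agent.H229R3.NR
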