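import Mathlib
import Pool.Agent.H229R3.NR.PathColour
import Pool.Agent.H229R3.NR.Step

set_option autoImplicit false

namespace Pool.Agent.H229R3.NR

open Classical

variable {V : Type}

/-- the list sizes -/
def cc : ℕ → ℕ → ℕ
  | 0, _ => 0
  | w + 1, N => max (60 * N + 8) (cc w (6 + 6 * N))

lemma cc_le : ∀ (w N : ℕ), cc (w + 1) N + 64 ≤ 12 * (5 * N + 6) * 6 ^ w := by
  intro w
  induction w with
  | zero => intro N; simp [cc]; omega
  | succ w ih =>
    intro N
    have h := ih (6 + 6 * N)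
    have h6 : 1 ≤ 6 ^ w := Nat.one_le_pow _ _ (by norm_num)
    have e : 12 * (5 * (6 + 6 * N) + 6) * 6 ^ w = 12 * (5 * N + 6) * 6 ^ (w + 1) := by ring
    rw [e] at h
    have h2 : 60 * N + 8 + 64 ≤ 12 * (5 * N + 6) * 6 ^ (w + 1) := by
      calc 60 * N + 8 + 64 ≤ 12 * (5 * N + 6) * 6 := by ring_nf; omega
        _ ≤ 12 * (5 * N + 6) * (6 * 6 ^ w) := by
            apply Nat.mul_le_mul_left; omega
        _ = _ := by ring
    rw [cc]
    rcases max_cases (60 * N + 8) (cc (w + 1) (6 + 6 * N)) with ⟨h3, _⟩ | ⟨h3, _⟩ <;> rw [h3]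
    · exact h2
    · exact h

lemma filt_le {s : Finset V} {P : V → Prop} (D : DecidablePred P) :
    (@Finset.filter V P D s).card ≤ s.card := Finset.card_le_card (Finset.filter_subset _ _)

lemma cross {B : ℕ → Finset V} {G : SimpleGraph V}
    (hedge : ∀ u v, G.Adj u v → ∃ i, u ∈ B i ∧ v ∈ B i)
    (hint : ∀ v i j k, i ≤ j → j ≤ k → v ∈ B i → v ∈ B k → v ∈ B j)
    {S : Set V} {n : ℕ} {p : ℕ → V} (hn : 0 < n) (hp : IsP G S n p) {a b i : ℕ}
    (ha : p 0 ∈ B a) (hb : p (n - 1) ∈ B b) (hai : a ≤ i) (hib : i ≤ b) :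
    ∃ c, c < n ∧ p c ∈ B i := by
  by_contra hcon
  push Not at hcon
  have key : ∀ c, c < n → ∀ k, p c ∈ B k → k < i := by
    intro c
    induction c with
    | zero =>
      intro hc k hk
      by_contra hki
      exact hcon 0 hc (hint _ a i k hai (by omega) ha hk)
    | succ c ih =>
      intro hc k hk
      obtain ⟨k', hk1, hk2⟩ := hedge _ _ (hp.adj c hc)
      have := ih (by omega) k' hk1
      by_contra hki
      exact hcon _ hc (hint _ k' i k (by omega) (by omega) hk2 hk)
  have := key (n - 1) (by omega) b hb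
  omega

lemma hitting [Finite V] {B : ℕ → Finset V} {G : SimpleGraph V}
    (hcov : ∀ v : V, ∃ i, v ∈ B i)
    (hedge : ∀ u v, G.Adj u v → ∃ i, u ∈ B i ∧ v ∈ B i)
    (hint : ∀ v i j k, i ≤ j → j ≤ k → v ∈ B i → v ∈ B k → v ∈ B j)
    {S : Set V} (hS : S.Nonempty) (hconn : Conn G S) {w : ℕ}
    (hw : ∀ i, ((B i).filter (· ∈ S)).card ≤ w + 1) :
    ∃ n p, 0 < n ∧ IsP G S n p ∧ ∀ i, ((B i).filter (· ∈ Off S n p)).card ≤ w := by
  have hfin : S.Finite := Set.toFinite S
  let lo : V → ℕ := fun v => Nat.find (hcov v)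
  have hlo : ∀ v, v ∈ B (lo v) := fun v => Nat.find_spec (hcov v)
  have hlo' : ∀ v i, v ∈ B i → lo v ≤ i := fun v i h => Nat.find_min' (hcov v) h
  obtain ⟨x0, hx0, hx0'⟩ := Set.exists_min_image S lo hfin hS
  obtain ⟨x1, hx1, hx1'⟩ := Set.exists_max_image S lo hfin hS
  obtain ⟨n, p, hn, hp, hp0, hp1⟩ := path_of_reach (hconn x0 hx0 x1 hx1) hx0
  have hmid : ∀ i, lo x0 ≤ i → i ≤ lo x1 → ((B i).filter (· ∈ Off S n p)).card ≤ w := by
    intro i h1 h2
    obtain ⟨c, hc, hcB⟩ := cross hedge hint hn hp (a := lo x0) (b := lo x1) (i := i)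
      (by rw [hp0]; exact hlo x0) (by rw [hp1]; exact hlo x1) h1 h2
    have hsub : (B i).filter (· ∈ Off S n p) ⊆ ((B i).filter (· ∈ S)).erase (p c) := by
      intro x hx
      rw [Finset.mem_filter] at hx
      rw [Finset.mem_erase, Finset.mem_filter]
      refine ⟨?_, hx.1, hx.2.1⟩
      rintro rfl
      exact hx.2.2 ⟨c, hc, rfl⟩
    have hmem : p c ∈ (B i).filter (· ∈ S) := by
      rw [Finset.mem_filter]
      exact ⟨hcB, hp.mem c hc⟩
    have h3 := Finset.card_le_card hsub
    rw [Finset.card_erase_of_mem hmem] at h3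
    have h4 := hw i
    omega
  refine ⟨n, p, hn, hp, fun i => ?_⟩
  rcases Nat.lt_or_ge i (lo x0) with h | h
  · have : (B i).filter (· ∈ Off S n p) = ∅ := by
      rw [Finset.filter_eq_empty_iff]
      intro x hx hx'
      have h1 := hx0' x hx'.1
      have h2 := hlo' x i hx
      omega
    rw [this]
    simp
  · rcases Nat.lt_or_ge (lo x1) i with h' | h'
    · refine le_trans (Finset.card_le_card ?_) (hmid (lo x1) (hx0' x1 hx1) le_rfl)
      intro x hx
      rw [Finset.mem_filter] at hx ⊢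
      refine ⟨?_, hx.2⟩
      exact hint x (lo x) (lo x1) i (hx1' x hx.2.1) (by omega) (hlo x) hx.1
    · exact hmid i h h'

lemma comp_conn (G : SimpleGraph V) (T : Set V) (x : V) : Conn G (Comp G T x) := by
  have key : ∀ a b, (res G T).Reachable a b → a ∈ Comp G T x →
      (res G (Comp G T x)).Reachable a b := by
    rintro a b ⟨q⟩
    induction q with
    | nil => intro _; exact SimpleGraph.Reachable.refl _
    | @cons a c b h q ih =>
      intro ha
      have hc : c ∈ Comp G T x := ⟨h.2.2, ha.2.trans (SimpleGraph.Adj.reachable h)⟩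
      exact (SimpleGraph.Adj.reachable (show (res G (Comp G T x)).Adj a c from
        ⟨h.1, ha, hc⟩)).trans (ih hc)
  intro a ha b hb
  exact key a b (ha.2.symm.trans hb.2) ha

theorem core [Finite V] {B : ℕ → Finset V} {G : SimpleGraph V} (hG : G.IsAcyclic)
    (hcov : ∀ v : V, ∃ i, v ∈ B i)
    (hedge : ∀ u v, G.Adj u v → ∃ i, u ∈ B i ∧ v ∈ B i)
    (hint : ∀ v i j k, i ≤ j → j ≤ k → v ∈ B i → v ∈ B k → v ∈ B j) :
    ∀ (w : ℕ) (J : Type) [Fintype J] (F : J → ℕ → ℕ → ℕ) (S : Set V), Conn G S →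
      (∀ i, ((B i).filter (· ∈ S)).card ≤ w) → ∀ L : V → Finset ℕ,
      (∀ v ∈ S, cc w (Fintype.card J) ≤ (L v).card) →
      ∃ φ : V → ℕ, (∀ v ∈ S, φ v ∈ L v) ∧
        (∀ t u, 0 < t → IsP G S (2 * t) u → ¬ ∀ a, a < t → φ (u a) = φ (u (a + t))) ∧
        (∀ j g u, 0 < g → IsP G S g u → ¬ ∀ b, b < g → φ (u b) = F j g b) := by
  intro w
  induction w with
  | zero =>
    intro J _ F S _ hw L _
    have hS : ∀ v, v ∉ S := by
      intro v hv
      obtain ⟨i, hi⟩ := hcov v
      have := hw i
      rw [Nat.le_zero, Finset.card_eq_zero, Finset.filter_eq_empty_iff] at this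
      exact this hi hv
    exact ⟨fun _ => 0, fun v hv => absurd hv (hS v), fun t u ht hu _ => hS _ (hu.mem 0 (by omega)),
      fun j g u hg hu _ => hS _ (hu.mem 0 hg)⟩
  | succ w ih =>
    intro J _ F S hconn hw L hL
    rcases S.eq_empty_or_nonempty with rfl | hne
    · exact ⟨fun _ => 0, fun v hv => absurd hv (by simp),
        fun t u ht hu _ => by simpa using (hu.mem 0 (by omega)),
        fun j g u hg hu _ => by simpa using (hu.mem 0 hg)⟩
    obtain ⟨n, p, hn, hp, hoff⟩ := hitting hcov hedge hint hne hconn hw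
    -- colour the path
    obtain ⟨f, hf1, hf2, hf3, hf4⟩ := path_colouring J F
      (fun i => if i < n then L (p i) else Finset.range (60 * Fintype.card J + 8))
      (by
        intro i
        split_ifs with hi
        · exact (le_max_left _ _).trans (hL _ (hp.mem i hi))
        · simp) n
    -- attachments
    let T := Off S n p
    let mk : V → (res G T).ConnectedComponent := (res G T).connectedComponentMk
    let attc : (res G T).ConnectedComponent → ℕ := fun c =>
      if h : ∃ i, i < n ∧ ∃ x ∈ T, mk x = c ∧ G.Adj x (p i) then h.choose else 0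
    have hattc : ∀ x ∈ T, ∀ i, i < n → G.Adj x (p i) → attc (mk x) = i := by
      intro x hx i hi hadj
      have hex : ∃ i, i < n ∧ ∃ y ∈ T, mk y = mk x ∧ G.Adj y (p i) := ⟨i, hi, x, hx, rfl, hadj⟩
      have hspec := hex.choose_spec
      simp only [attc, dif_pos hex]
      obtain ⟨h1, y, hy, h2, h3⟩ := hspec
      have hreach : (res G T).Reachable y x := SimpleGraph.ConnectedComponent.eq.1 h2
      obtain ⟨m, u, hm, hu, hu0, hu1⟩ := path_of_reach hreach hy
      refine attach_unique hG hp hm hu ?_ h1 hi ?_ ?_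
      · intro z hz i hi hi'
        exact hz.2 ⟨i, hi, hi'⟩
      · rw [hu0]; exact h3
      · rw [hu1]; exact hadj
    -- colour the components
    have hcomp : ∀ c : (res G T).ConnectedComponent, ∃ φ : V → ℕ,
        (∀ v, v ∈ T → mk v = c → φ v ∈ L v) ∧
        (∀ x ∈ T, mk x = c → ∀ t u, 0 < t → IsP G (Comp G T x) (2 * t) u →
          ¬ ∀ a, a < t → φ (u a) = φ (u (a + t))) ∧
        (∀ x ∈ T, mk x = c → ∀ j g u, 0 < g → IsP G (Comp G T x) g u →
          ¬ ∀ b, b < g → φ (u b) = Fn f F (attc c) j g b) := by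
      intro c
      by_cases hc : ∃ x ∈ T, mk x = c
      · obtain ⟨x, hx, hxc⟩ := hc
        have hKT : ∀ y, y ∈ Comp G T x → y ∈ T := fun y hy => hy.1
        obtain ⟨φ, h1, h2, h3⟩ := ih ((Fin 3 × Bool) ⊕ (J × Fin 3 × Bool)) (Fn f F (attc c))
          (Comp G T x) (comp_conn G T x) (by
            intro i
            refine le_trans (Finset.card_le_card ?_) (hoff i)
            intro y hy
            rw [Finset.mem_filter] at hy ⊢
            exact ⟨hy.1, hKT y hy.2⟩) L (by
            intro y hy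
            have h1 := hL y (hKT y hy).1
            have h2 : Fintype.card ((Fin 3 × Bool) ⊕ (J × Fin 3 × Bool)) =
                6 + 6 * Fintype.card J := by
              simp [Fintype.card_sum, Fintype.card_prod]
              ring
            rw [h2]
            exact (le_max_right _ _).trans h1)
        have hsame : ∀ y ∈ T, mk y = c → Comp G T y = Comp G T x := by
          intro y hy hyc
          have hr : (res G T).Reachable y x :=
            SimpleGraph.ConnectedComponent.eq.1 (hyc.trans hxc.symm)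
          ext z
          exact ⟨fun hz => ⟨hz.1, hr.symm.trans hz.2⟩, fun hz => ⟨hz.1, hr.trans hz.2⟩⟩
        refine ⟨φ, ?_, ?_, ?_⟩
        · intro v hv hvc
          refine h1 v ⟨hv, SimpleGraph.ConnectedComponent.eq.1 (hxc.trans hvc.symm)⟩
        · intro y hy hyc t u ht hu
          rw [hsame y hy hyc] at hu
          exact h2 t u ht hu
        · intro y hy hyc j g u hg hu
          rw [hsame y hy hyc] at hu
          exact h3 j g u hg hu
      · refine ⟨fun _ => 0, ?_, ?_, ?_⟩
        · intro v hv hvc; exact absurd ⟨v, hv, hvc⟩ hc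
        · intro v hv hvc; exact absurd ⟨v, hv, hvc⟩ hc
        · intro v hv hvc; exact absurd ⟨v, hv, hvc⟩ hc
    choose Φ hΦ1 hΦ2 hΦ3 using hcomp
    let φ : V → ℕ := fun v => if h : ∃ i, i < n ∧ p i = v then f h.choose else Φ (mk v) v
    have hφp : ∀ i, i < n → φ (p i) = f i := by
      intro i hi
      have hex : ∃ i', i' < n ∧ p i' = p i := ⟨i, hi, rfl⟩
      have hspec := hex.choose_spec
      simp only [φ, dif_pos hex]
      congr 1
      exact hp.inj _ _ hspec.1 hi hspec.2
    have hφT : ∀ v ∈ T, φ v = Φ (mk v) v := by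
      intro v hv
      simp only [φ, dif_neg hv.2]
    have hφK : ∀ x ∈ T, ∀ y ∈ Comp G T x, φ y = Φ (mk x) y := by
      intro x hx y hy
      rw [hφT y hy.1]
      have : mk x = mk y := SimpleGraph.ConnectedComponent.eq.2 hy.2
      rw [this]
    have H : Setup G S n p f φ (fun v => attc (mk v)) F := by
      refine ⟨hG, hp, hφp, hf2, hf3, hf4, hattc, ?_, ?_⟩
      · intro x hx t u ht hu hsq
        refine hΦ2 (mk x) x hx rfl t u ht hu ?_
        intro a ha
        rw [← hφK x hx _ (hu.mem a (by omega)), ← hφK x hx _ (hu.mem (a + t) (by omega))]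
        exact hsq a ha
      · intro x hx j g u hg hu hb
        refine hΦ3 (mk x) x hx rfl j g u hg hu ?_
        intro b hb'
        rw [← hφK x hx _ (hu.mem b hb')]
        exact hb b hb'
    refine ⟨φ, ?_, fun t u ht hu => H.no_sq ht hu, fun j g u hg hu => H.no_word hg hu j⟩
    intro v hv
    by_cases h : ∃ i, i < n ∧ p i = v
    · obtain ⟨i, hi, rfl⟩ := h
      rw [hφp i hi]
      have := hf1 i hi
      rwa [if_pos hi] at this
    · rw [hφT v ⟨hv, h⟩]
      exact hΦ1 (mk v) v ⟨hv, h⟩ rfl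

end Pool.Agent.H229R3.NR
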